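import Pool.Agent.Q129.CircPatterns

set_option autoImplicit false

/-!
# Finite circular-order obstructions for `k`-colourable graphs

The class of `k`-colourable graphs is described by a finite set of circularly ordered graphs only
for `k = 1`.
-/

theorem Pool.Agent.Results.MP_c7ad22_co.OnlyOne.result :
    ∀ k : ℕ, 1 ≤ k →
      ((∃ F : Set (Σ h : ℕ, SimpleGraph (Fin h)), F.Finite ∧ Q129.CircPatterns.Describes F k) ↔
        k = 1) := by
  intro k hk
  constructor
  · rintro ⟨F, hF, hd⟩
    by_contra hne
    exact Q129.CircPatterns.not_describes (by omega) F hF hd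
  · rintro rfl
    exact Q129.CircPatterns.describes_one
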